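import Pool.Agent.N483.KM.Stm1
import Pool.Agent.R755.KF.K1
import Pool.Agent.Z864.RG.LDK
import Pool.Agent.Y211.PV.Iso
import Pool.Agent.Y252.PV.M4
import Pool.Agent.Y625.PV.LevUm

/-!
# Project KM: fibres over the barycentre
-/

set_option autoImplicit false

namespace Pool.Agent.N306.KM

open MeasureTheory Set Filter Topology
open scoped ENNReal InnerProductSpace
open Pool.Agent.W695.KH (Eu)
open Pool.Agent.Y506.RG (EW VW Adm ILK VW_shift EW_nonneg)
open Pool.Agent.Y506.PV (LCn)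
open Pool.Agent.R754.KG (E un sl Rv)
open Pool.Agent.R755.KF (CB)
open Pool.Agent.N483.KM

variable {N d : ℕ} {K : Set (E N × E d)}

theorem kmeas (h : CB K) : MeasurableSet K := h.comp.measurableSet
theorem kfin (h : CB K) : volume K ≠ ⊤ := h.comp.measure_lt_top.ne
theorem sl_meas (h : CB K) (t : E d) : MeasurableSet (sl K t) := measurable_prodMk_right (kmeas h)
theorem sl_bd (h : CB K) (t : E d) : Bornology.IsBounded (sl K t) :=
  h.comp.isBounded.image_fst.subset fun x hx => ⟨(x, t), hx, rfl⟩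
theorem sl_fin (h : CB K) (t : E d) : volume (sl K t) ≠ ⊤ := (sl_bd h t).measure_lt_top.ne

theorem R_vol (h : CB K) (t : E d) : volume (sl K t) = ENNReal.ofReal (Rv K t) := by
  unfold Rv
  rw [ENNReal.ofReal_toReal (sl_fin h t)]

theorem vol_meas (h : CB K) : Measurable fun t => volume (sl K t) := by
  have h1 : Measurable fun t : E d => ∫⁻ x, K.indicator (fun _ => (1 : ℝ≥0∞)) (x, t) :=
    (measurable_const.indicator (kmeas h)).lintegral_prod_left'
  convert h1 using 2 with t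
  have e : (fun x => K.indicator (fun _ => (1 : ℝ≥0∞)) (x, t)) =
      (sl K t).indicator fun _ => 1 := rfl
  rw [e, lintegral_indicator (sl_meas h t)]
  simp

theorem R_meas (h : CB K) : Measurable (Rv K) := by
  unfold Rv
  exact (vol_meas h).ennreal_toReal

theorem vol_fub (h : CB K) : volume K = ∫⁻ t, ENNReal.ofReal (Rv K t) := by
  have e : volume K = ∫⁻ z, K.indicator (fun _ => (1 : ℝ≥0∞)) z := by
    rw [lintegral_indicator (kmeas h)]; simp
  rw [e, Measure.volume_eq_prod, lintegral_prod_symm' _ (measurable_const.indicator (kmeas h))]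
  refine lintegral_congr fun t => ?_
  rw [← R_vol h t]
  have e : (fun x => K.indicator (fun _ => (1 : ℝ≥0∞)) (x, t)) =
      (sl K t).indicator fun _ => 1 := rfl
  rw [e, lintegral_indicator (sl_meas h t)]
  simp

theorem R_nonneg (t : E d) : 0 ≤ Rv K t := by
  unfold Rv
  positivity

theorem R_int (h : CB K) : Integrable (Rv K) := by
  refine ⟨(R_meas h).aestronglyMeasurable, ?_⟩
  rw [hasFiniteIntegral_iff_ofReal (Eventually.of_forall fun t => R_nonneg t), ← vol_fub h]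
  exact (kfin h).lt_top

theorem R_tot (h : CB K) : ∫ t, Rv K t = (volume K).toReal := by
  rw [vol_fub h, integral_eq_lintegral_of_nonneg_ae (Eventually.of_forall fun t => R_nonneg t)
    (R_meas h).aestronglyMeasurable]

theorem R_supp (h : CB K) : ∃ R : ℝ, 0 ≤ R ∧ ∀ t, Rv K t ≠ 0 → ‖t‖ ≤ R := by
  obtain ⟨R, hR⟩ := h.comp.isBounded.exists_norm_le
  refine ⟨max R 0, le_max_right _ _, fun t ht => ?_⟩
  have hne : (sl K t).Nonempty := by
    by_contra hcon
    rw [not_nonempty_iff_eq_empty] at hcon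
    apply ht
    unfold Rv
    rw [hcon]; simp
  obtain ⟨x, hx⟩ := hne
  exact ((norm_snd_le (x, t)).trans (hR _ hx)).trans (le_max_left _ _)

theorem adm (h : CB K) : Adm (Rv K) := by
  obtain ⟨R, hR0, hR⟩ := R_supp h
  refine ⟨fun t => R_nonneg t, ?_, ?_, R_meas h⟩
  · refine Integrable.mono' ((R_int h).const_mul (1 + R ^ 2))
      ((by fun_prop : Measurable fun x : E d => 1 + ‖x‖ ^ 2).mul (R_meas h)).aestronglyMeasurable
      (Eventually.of_forall fun t => ?_)
    rw [Real.norm_eq_abs, abs_of_nonneg (mul_nonneg (by positivity) (R_nonneg t))]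
    by_cases ht : Rv K t = 0
    · rw [ht]; simp
    · have h1 := hR t ht
      have h2 : ‖t‖ ^ 2 ≤ R ^ 2 := pow_le_pow_left₀ (norm_nonneg _) h1 2
      exact mul_le_mul_of_nonneg_right (by linarith) (R_nonneg t)
  · rw [R_tot h]
    exact ENNReal.toReal_pos h.pos.ne' (kfin h)

theorem lcn (h : CB K) : LCn (Rv K) := fun x y t ht0 ht1 =>
  Pool.Agent.R755.KF.geo N d K h x y t ht0 ht1

/-- means of functions of the second component -/
theorem un_snd (h : CB K) (f : E d → ℝ) (hf : Continuous f) :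
    ∫ z, f z.2 ∂(un K) = EW (Rv K) f := by
  have hfc : Continuous fun z : E N × E d => f z.2 := hf.comp continuous_snd
  have hi : IntegrableOn (fun z : E N × E d => f z.2) K :=
    hfc.continuousOn.integrableOn_compact h.comp
  have h1 : ∫ z in K, f z.2 = ∫ t, f t * Rv K t := by
    rw [← integral_indicator (kmeas h)]
    have hi' : Integrable (K.indicator fun z : E N × E d => f z.2)
        ((volume : Measure (E N)).prod (volume : Measure (E d))) := by
      rw [← Measure.volume_eq_prod]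
      exact hi.integrable_indicator (kmeas h)
    rw [Measure.volume_eq_prod, integral_prod_symm _ hi']
    congr 1
    funext t
    have e : (fun x => K.indicator (fun z : E N × E d => f z.2) (x, t)) =
      (sl K t).indicator fun _ => f t := rfl
    rw [e, integral_indicator (sl_meas h t), setIntegral_const]
    unfold Rv
    rw [smul_eq_mul, mul_comm]
    rfl
  unfold un EW
  rw [integral_smul_measure, h1, R_tot h, ENNReal.toReal_inv, smul_eq_mul]
  field_simp

/-- change of variables -/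
theorem cov (A : E d ≃L[ℝ] E d) (ts : E d) : ∃ D : ℝ≥0∞, D ≠ 0 ∧ D ≠ ⊤ ∧
    ∀ G : E d → ℝ≥0∞, Measurable G → ∫⁻ z, G (ts + A.symm z) = D * ∫⁻ t, G t := by
  have hdet : LinearMap.det (A.symm.toLinearEquiv : E d →ₗ[ℝ] E d) ≠ 0 :=
    (LinearEquiv.isUnit_det' A.symm.toLinearEquiv).ne_zero
  have h1 := Measure.map_linearMap_addHaar_eq_smul_addHaar (volume : Measure (E d)) hdet
  set D : ℝ≥0∞ := ENNReal.ofReal |(LinearMap.det (A.symm.toLinearEquiv : E d →ₗ[ℝ] E d))⁻¹| with hD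
  refine ⟨D, ?_, ENNReal.ofReal_ne_top, fun G hG => ?_⟩
  · rw [hD]
    exact (ENNReal.ofReal_pos.2 (abs_pos.2 (inv_ne_zero hdet))).ne'
  · have hm : Measurable fun z : E d => A.symm z := A.symm.continuous.measurable
    have h2 : ∫⁻ z, G (ts + A.symm z) = ∫⁻ u, G (ts + u) ∂(Measure.map (fun z => A.symm z) volume) := by
      have hG' : Measurable fun u : E d => G (ts + u) := hG.comp (measurable_const_add ts)
      rw [lintegral_map hG' hm]
    rw [h2]
    have h3 : Measure.map (fun z => A.symm z) (volume : Measure (E d)) = D • volume := h1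
    rw [h3, lintegral_smul_measure, lintegral_add_left_eq_self]
    rfl

/-- the density of the isotropic position -/
noncomputable def gd (K : Set (E N × E d)) (A : E d ≃L[ℝ] E d) (ts : E d) (c : ℝ≥0∞) (z : E d) :
    ℝ≥0∞ := ENNReal.ofReal (Rv K (ts + A.symm z)) * c

theorem key (h : CB K) (A : E d ≃L[ℝ] E d) (ts : E d) : ∃ c : ℝ≥0∞, c ≠ 0 ∧ c ≠ ⊤ ∧
    ∀ F : E d → ℝ, Measurable F → (∀ t, 0 ≤ F t) → Integrable (fun t => F t * Rv K t) →
    ∫⁻ z, ENNReal.ofReal (F (ts + A.symm z)) * gd K A ts c z = ENNReal.ofReal (EW (Rv K) F) := by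
  obtain ⟨D, hD0, hD1, hD⟩ := cov A ts
  have hv0 : volume K ≠ 0 := h.pos.ne'
  have hv1 := kfin h
  have hDv0 : D * volume K ≠ 0 := mul_ne_zero hD0 hv0
  have hDv1 : D * volume K ≠ ⊤ := ENNReal.mul_ne_top hD1 hv1
  refine ⟨(D * volume K)⁻¹, ENNReal.inv_ne_zero.2 hDv1, ENNReal.inv_ne_top.2 hDv0, ?_⟩
  intro F hF hF0 hFi
  have hm : Measurable fun t => ENNReal.ofReal (F t) *
      (ENNReal.ofReal (Rv K t) * (D * volume K)⁻¹) :=
    hF.ennreal_ofReal.mul ((R_meas h).ennreal_ofReal.mul_const _)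
  have e1 := hD (fun t => ENNReal.ofReal (F t) * (ENNReal.ofReal (Rv K t) * (D * volume K)⁻¹)) hm
  unfold gd
  rw [e1]
  have e2 : ∫⁻ t, ENNReal.ofReal (F t) * (ENNReal.ofReal (Rv K t) * (D * volume K)⁻¹)
      = ENNReal.ofReal (∫ t, F t * Rv K t) * (D * volume K)⁻¹ := by
    have hm2 : Measurable fun t => ENNReal.ofReal (F t * Rv K t) :=
      (hF.mul (R_meas h)).ennreal_ofReal
    rw [ofReal_integral_eq_lintegral_ofReal hFi
      (Eventually.of_forall fun t => mul_nonneg (hF0 t) (R_nonneg t)),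
      ← lintegral_mul_const _ hm2]
    refine lintegral_congr fun t => ?_
    rw [ENNReal.ofReal_mul (hF0 t), mul_assoc]
  rw [e2]
  have hvr : 0 < (volume K).toReal := ENNReal.toReal_pos hv0 hv1
  unfold EW
  rw [R_tot h, ENNReal.ofReal_div_of_pos hvr, ENNReal.ofReal_toReal hv1,
    ENNReal.mul_inv (Or.inl hD0) (Or.inl hD1), div_eq_mul_inv]
  calc D * (ENNReal.ofReal (∫ t, F t * Rv K t) * (D⁻¹ * (volume K)⁻¹))
      = (D * D⁻¹) * (ENNReal.ofReal (∫ t, F t * Rv K t) * (volume K)⁻¹) := by ring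
    _ = _ := by rw [ENNReal.mul_inv_cancel hD0 hD1, one_mul]

theorem ofReal_max0 (x : ℝ) : ENNReal.ofReal x = ENNReal.ofReal (max x 0) := by
  rcases le_total x 0 with h | h
  · rw [max_eq_right h, ENNReal.ofReal_of_nonpos h, ENNReal.ofReal_zero]
  · rw [max_eq_left h]

theorem ilk (h : CB K) (ts : E d) (hts : ∀ θ : E d, ∫ z, ⟪z.2, θ⟫_ℝ ∂(un K) = ⟪ts, θ⟫_ℝ)
    (A : E d ≃L[ℝ] E d) (hA : ∀ θ : E d, VW (Rv K) (fun x => ⟪A x, θ⟫_ℝ) = ‖θ‖ ^ 2) (C : ℝ)
    (hM : ∀ θ : E d,
      Integrable (fun x => (⟪x, θ⟫_ℝ - EW (Rv K) fun x => ⟪x, θ⟫_ℝ) ^ 4 * Rv K x) ∧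
      EW (Rv K) (fun x => (⟪x, θ⟫_ℝ - EW (Rv K) fun x => ⟪x, θ⟫_ℝ) ^ 4) ≤
        C * (VW (Rv K) fun x => ⟪x, θ⟫_ℝ) ^ 2) :
    ∃ c : ℝ≥0∞, c ≠ 0 ∧ c ≠ ⊤ ∧ ILK C (gd K A ts c) := by
  obtain ⟨c, hc0, hc1, hkey⟩ := key h A ts
  refine ⟨c, hc0, hc1, ?_⟩
  have hAdm := adm h
  have hmean : ∀ θ : E d, (EW (Rv K) fun x => ⟪x, θ⟫_ℝ) = ⟪ts, θ⟫_ℝ := by
    intro θ
    rw [← hts θ, un_snd h (fun t => ⟪t, θ⟫_ℝ) (by fun_prop)]
  have hmg : Measurable (gd K A ts c) := by
    unfold gd
    refine Measurable.mul_const ?_ _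
    exact ((R_meas h).comp (by fun_prop : Measurable fun z : E d => ts + A.symm z)).ennreal_ofReal
  -- the adjoint
  have hadj : ∀ v : E d, ∃ v' : E d, (∀ t, ⟪t, v'⟫_ℝ = ⟪A t, v⟫_ℝ) ∧
      (∀ z, ⟪v, z⟫_ℝ = ⟪ts + A.symm z, v'⟫_ℝ - ⟪ts, v'⟫_ℝ) := by
    intro v
    refine ⟨ContinuousLinearMap.adjoint (A : E d →L[ℝ] E d) v, fun t => ?_, fun z => ?_⟩
    · rw [ContinuousLinearMap.adjoint_inner_right]
      rfl
    · rw [← inner_sub_left, add_sub_cancel_left, ContinuousLinearMap.adjoint_inner_right,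
        real_inner_comm]
      congr 1
      exact (A.apply_symm_apply z).symm
  refine ⟨hmg, ?_, ?_, ?_, ?_, ?_⟩
  · -- log-concavity
    intro x y t ht0 ht1
    unfold gd
    have h1 := lcn h (ts + A.symm x) (ts + A.symm y) t ht0 ht1
    have e1 : (1 - t) • (ts + A.symm x) + t • (ts + A.symm y)
        = ts + A.symm ((1 - t) • x + t • y) := by
      rw [map_add, map_smul, map_smul]
      module
    rw [e1] at h1
    have h2 := ENNReal.ofReal_le_ofReal h1
    rw [ENNReal.ofReal_mul (Real.rpow_nonneg (R_nonneg _) _),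
      ← ENNReal.ofReal_rpow_of_nonneg (R_nonneg _) (by linarith),
      ← ENNReal.ofReal_rpow_of_nonneg (R_nonneg _) ht0.le] at h2
    rw [ENNReal.mul_rpow_of_nonneg _ _ (by linarith : (0 : ℝ) ≤ 1 - t),
      ENNReal.mul_rpow_of_nonneg _ _ ht0.le]
    have h3 : c ^ (1 - t) * c ^ t = c := by
      rw [← ENNReal.rpow_add _ _ hc0 hc1]
      simp
    calc ENNReal.ofReal (Rv K (ts + A.symm x)) ^ (1 - t) * c ^ (1 - t) *
          (ENNReal.ofReal (Rv K (ts + A.symm y)) ^ t * c ^ t)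
        = ENNReal.ofReal (Rv K (ts + A.symm x)) ^ (1 - t) *
          ENNReal.ofReal (Rv K (ts + A.symm y)) ^ t * (c ^ (1 - t) * c ^ t) := by ring
      _ ≤ _ := by
          rw [h3]
          exact mul_le_mul_left h2 c
  · -- mass
    have h1 := hkey (fun _ => 1) measurable_const (fun _ => zero_le_one)
      (by simpa using R_int h)
    simp only [ENNReal.ofReal_one, one_mul] at h1
    rw [h1, Pool.Agent.Y506.RG.EW_const hAdm, ENNReal.ofReal_one]
  · -- first moments
    intro v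
    obtain ⟨v', hv1, hv2⟩ := hadj v
    set u : E d → ℝ := fun t => ⟪t, v'⟫_ℝ - ⟪ts, v'⟫_ℝ with hu
    have hum : Measurable u := by fun_prop
    have hui : Integrable fun t => u t * Rv K t := by
      have e : (fun t => u t * Rv K t) = fun t => ⟪t, v'⟫_ℝ * Rv K t - ⟪ts, v'⟫_ℝ * Rv K t := by
        funext t
        simp only [hu]
        ring
      rw [e]
      exact (Pool.Agent.Y211.PV.int_lin hAdm v').sub ((R_int h).const_mul _)
    have hp : Integrable fun t => max (u t) 0 * Rv K t := by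
      refine hui.norm.mono' ((hum.max measurable_const).mul (R_meas h)).aestronglyMeasurable
        (Eventually.of_forall fun t => ?_)
      rw [norm_mul, norm_mul]
      refine mul_le_mul_of_nonneg_right ?_ (norm_nonneg _)
      rw [Real.norm_eq_abs, Real.norm_eq_abs, abs_of_nonneg (le_max_right _ _)]
      exact max_le (le_abs_self _) (abs_nonneg _)
    have hn : Integrable fun t => max (-u t) 0 * Rv K t := by
      refine hui.norm.mono' ((hum.neg.max measurable_const).mul (R_meas h)).aestronglyMeasurable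
        (Eventually.of_forall fun t => ?_)
      rw [norm_mul, norm_mul]
      refine mul_le_mul_of_nonneg_right ?_ (norm_nonneg _)
      rw [Real.norm_eq_abs, Real.norm_eq_abs, abs_of_nonneg (le_max_right _ _)]
      exact max_le (neg_le_abs _) (abs_nonneg _)
    have k1 := hkey (fun t => max (u t) 0) (hum.max measurable_const)
      (fun t => le_max_right _ _) hp
    have k2 := hkey (fun t => max (-u t) 0) (hum.neg.max measurable_const)
      (fun t => le_max_right _ _) hn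
    have e1 : ∀ z, ENNReal.ofReal ⟪v, z⟫_ℝ = ENNReal.ofReal (max (u (ts + A.symm z)) 0) := by
      intro z
      rw [hv2 z, ofReal_max0]
    have e2 : ∀ z, ENNReal.ofReal (-⟪v, z⟫_ℝ) = ENNReal.ofReal (max (-u (ts + A.symm z)) 0) := by
      intro z
      rw [hv2 z, ofReal_max0]
    simp only [e1, e2]
    rw [k1, k2]
    congr 1
    have e3 : (fun t => max (u t) 0) = fun t => u t + max (-u t) 0 := by
      funext t
      rcases le_total (u t) 0 with h1 | h1
      · rw [max_eq_right h1, max_eq_left (by linarith)]; ring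
      · rw [max_eq_left h1, max_eq_right (by linarith)]; ring
    rw [e3, Pool.Agent.Y506.RG.EW_add u _ hui hn]
    have e4 : EW (Rv K) u = 0 := by
      have e5 : u = fun t => ⟪t, v'⟫_ℝ + (-⟪ts, v'⟫_ℝ) := by
        funext t
        simp only [hu]
        ring
      rw [e5, Pool.Agent.Y506.RG.EW_add _ _ (Pool.Agent.Y211.PV.int_lin hAdm v')
        ((R_int h).const_mul _), Pool.Agent.Y506.RG.EW_const hAdm, hmean]
      ring
    rw [e4, zero_add]
  · -- second moments
    intro v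
    obtain ⟨v', hv1, hv2⟩ := hadj v
    have hVe := Pool.Agent.Y211.PV.VW_eq hAdm v'
    rw [hmean] at hVe
    have e0 : (fun x => ⟪A x, v⟫_ℝ) = fun x => ⟪x, v'⟫_ℝ := by
      funext x
      rw [hv1]
    have hA' := hA v
    rw [e0] at hA'
    have hi : Integrable fun t => (⟪t, v'⟫_ℝ - ⟪ts, v'⟫_ℝ) ^ 2 * Rv K t := by
      have e : (fun t => (⟪t, v'⟫_ℝ - ⟪ts, v'⟫_ℝ) ^ 2 * Rv K t) = fun t =>
          ⟪t, v'⟫_ℝ ^ 2 * Rv K t + (-(2 * ⟪ts, v'⟫_ℝ) * (⟪t, v'⟫_ℝ * Rv K t) +
            ⟪ts, v'⟫_ℝ ^ 2 * Rv K t) := by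
        funext t
        ring
      rw [e]
      exact (Pool.Agent.Y211.PV.int_sq hAdm v').add
        (((Pool.Agent.Y211.PV.int_lin hAdm v').const_mul _).add ((R_int h).const_mul _))
    have k1 := hkey (fun t => (⟪t, v'⟫_ℝ - ⟪ts, v'⟫_ℝ) ^ 2) (by fun_prop)
      (fun t => sq_nonneg _) hi
    simp only [hv2]
    rw [k1, ← hVe, hA']
  · -- fourth moments
    intro v
    obtain ⟨v', hv1, hv2⟩ := hadj v
    have e0 : (fun x => ⟪A x, v⟫_ℝ) = fun x => ⟪x, v'⟫_ℝ := by
      funext x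
      rw [hv1]
    have hA' := hA v
    rw [e0] at hA'
    obtain ⟨m1, m2⟩ := hM v'
    rw [hmean] at m1 m2
    have k1 := hkey (fun t => (⟪t, v'⟫_ℝ - ⟪ts, v'⟫_ℝ) ^ 4) (by fun_prop)
      (fun t => by positivity) m1
    simp only [hv2]
    rw [k1]
    apply ENNReal.ofReal_le_ofReal
    refine m2.trans (le_of_eq ?_)
    rw [hA']
    ring

/-- the growth of the fibres in one direction -/
theorem cen_of (h : CB K) (ts : E d) (A : E d ≃L[ℝ] E d) (c : ℝ≥0∞) (hc0 : c ≠ 0) (hc1 : c ≠ ⊤)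
    (c0 C0 r0 : ℝ) (h0 : 0 < c0) (h1 : 0 < C0) (h2 : 0 < r0)
    (g1 : ∀ z, ‖z‖ ≤ r0 → ENNReal.ofReal c0 ≤ gd K A ts c z)
    (g2 : ∀ z, gd K A ts c z ≤ ENNReal.ofReal C0)
    (g3 : ∀ z, ENNReal.ofReal (‖z‖ ^ 4) * gd K A ts c z ≤ ENNReal.ofReal C0) :
    0 < Rv K ts ∧ Cen (max r0 (max 1 (Real.exp 1 * C0 / c0)) / r0 * |Real.log (C0 / c0)|) K ts := by
  obtain ⟨k, hk, rfl⟩ : ∃ k : ℝ, 0 < k ∧ c = ENNReal.ofReal k :=
    ⟨c.toReal, ENNReal.toReal_pos hc0 hc1, (ENNReal.ofReal_toReal hc1).symm⟩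
  have hgd : ∀ z, gd K A ts (ENNReal.ofReal k) z = ENNReal.ofReal (Rv K (ts + A.symm z) * k) := by
    intro z
    unfold gd
    rw [ENNReal.ofReal_mul (R_nonneg _)]
  have q1 : ∀ z, ‖z‖ ≤ r0 → c0 ≤ Rv K (ts + A.symm z) * k := by
    intro z hz
    have := g1 z hz
    rw [hgd] at this
    exact (ENNReal.ofReal_le_ofReal_iff (mul_nonneg (R_nonneg _) hk.le)).1 this
  have q2 : ∀ z, Rv K (ts + A.symm z) * k ≤ C0 := by
    intro z
    have := g2 z
    rw [hgd] at this
    exact (ENNReal.ofReal_le_ofReal_iff h1.le).1 this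
  have q3 : ∀ z, ‖z‖ ^ 4 * (Rv K (ts + A.symm z) * k) ≤ C0 := by
    intro z
    have := g3 z
    rw [hgd, ← ENNReal.ofReal_mul (by positivity)] at this
    exact (ENNReal.ofReal_le_ofReal_iff h1.le).1 this
  have p0 : c0 ≤ Rv K ts * k := by
    have := q1 0 (by simpa using h2.le)
    simpa using this
  have hRpos : 0 < Rv K ts := by
    by_contra hcon
    push Not at hcon
    nlinarith
  refine ⟨hRpos, ?_⟩
  intro t ht x hx0 hx1
  set L := max r0 (max 1 (Real.exp 1 * C0 / c0)) with hL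
  have hL1 : r0 ≤ L := le_max_left _ _
  have hL2 : 1 ≤ L := (le_max_left _ _).trans (le_max_right _ _)
  have hL3 : Real.exp 1 * C0 / c0 ≤ L := (le_max_right _ _).trans (le_max_right _ _)
  have hLpos : 0 < L := by linarith
  have hcn : 0 ≤ L / r0 * |Real.log (C0 / c0)| := by positivity
  rcases hx0.eq_or_lt with rfl | hx
  · simp
  have hexp1 : 1 ≤ Real.exp (L / r0 * |Real.log (C0 / c0)| * x) := Real.one_le_exp (by positivity)
  by_cases hz : Rv K (ts + x • (t - ts)) = 0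
  · rw [hz]
    positivity
  have hxpos : 0 < Rv K (ts + x • (t - ts)) := lt_of_le_of_ne (R_nonneg _) (Ne.symm hz)
  -- the point `t'`
  set t' : E d := A (t - ts) with ht'
  have hAs : A.symm t' = t - ts := A.symm_apply_apply _
  have hnorm : ‖t'‖ ≤ L := by
    have e1 := q3 t'
    rw [hAs, add_sub_cancel] at e1
    have e2 : c0 ≤ Real.exp 1 * (Rv K t * k) := by
      calc c0 ≤ Rv K ts * k := p0
        _ ≤ Real.exp 1 * Rv K t * k := mul_le_mul_of_nonneg_right ht hk.le
        _ = _ := by ring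
    have e3 : ‖t'‖ ^ 4 * c0 ≤ Real.exp 1 * C0 := by
      calc ‖t'‖ ^ 4 * c0 ≤ ‖t'‖ ^ 4 * (Real.exp 1 * (Rv K t * k)) :=
            mul_le_mul_of_nonneg_left e2 (by positivity)
        _ = Real.exp 1 * (‖t'‖ ^ 4 * (Rv K t * k)) := by ring
        _ ≤ _ := mul_le_mul_of_nonneg_left e1 (Real.exp_pos 1).le
    have e4 : ‖t'‖ ^ 4 ≤ L := by
      refine le_trans ?_ hL3
      rw [le_div_iff₀ h0]
      exact e3
    have e5 : L ≤ L ^ 4 := by
      calc L = L ^ 1 := (pow_one L).symm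
        _ ≤ L ^ 4 := pow_le_pow_right₀ hL2 (by norm_num)
    exact le_of_pow_le_pow_left₀ (by norm_num : (4 : ℕ) ≠ 0) hLpos.le (e4.trans e5)
  set γ := r0 / L with hγ
  have hγ0 : 0 < γ := by positivity
  have hy1 : c0 ≤ Rv K (ts + (-γ) • (t - ts)) * k := by
    have := q1 ((-γ) • t') (by
      rw [norm_smul, Real.norm_eq_abs, abs_neg, abs_of_pos hγ0]
      calc γ * ‖t'‖ ≤ γ * L := mul_le_mul_of_nonneg_left hnorm hγ0.le
        _ = r0 := by rw [hγ]; field_simp)
    rwa [map_smul, hAs] at this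
  have hypos : 0 < Rv K (ts + (-γ) • (t - ts)) := by
    by_contra hcon
    push Not at hcon
    nlinarith
  -- log-concavity
  set l := γ / (x + γ) with hl
  have hl0 : 0 < l := by positivity
  have hl1 : l < 1 := by
    rw [hl, div_lt_one (by positivity)]
    linarith
  have hg := Pool.Agent.R755.KF.geo N d K h (ts + (-γ) • (t - ts)) (ts + x • (t - ts)) l hl0 hl1
  have hpt : (1 - l) • (ts + (-γ) • (t - ts)) + l • (ts + x • (t - ts)) = ts := by
    have e1 : (1 - l) * (-γ) + l * x = 0 := by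
      rw [hl]
      field_simp
      ring
    calc (1 - l) • (ts + (-γ) • (t - ts)) + l • (ts + x • (t - ts))
        = ts + ((1 - l) * (-γ) + l * x) • (t - ts) := by module
      _ = ts := by rw [e1, zero_smul, add_zero]
  rw [hpt] at hg
  have hlog := Real.log_le_log (mul_pos (Real.rpow_pos_of_pos hypos _)
    (Real.rpow_pos_of_pos hxpos _)) hg
  rw [Real.log_mul (Real.rpow_pos_of_pos hypos _).ne' (Real.rpow_pos_of_pos hxpos _).ne',
    Real.log_rpow hypos, Real.log_rpow hxpos] at hlog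
  set a := Real.log (Rv K (ts + (-γ) • (t - ts))) with ha
  set b := Real.log (Rv K (ts + x • (t - ts))) with hb
  set u := Real.log (Rv K ts) with hu
  have hua : u - a ≤ |Real.log (C0 / c0)| := by
    have e1 : Rv K ts / Rv K (ts + (-γ) • (t - ts)) ≤ C0 / c0 := by
      rw [div_le_div_iff₀ hypos h0]
      have e2 : Rv K ts * k ≤ C0 := by
        have := q2 0
        simpa using this
      have e3 : (Rv K ts * k) * c0 ≤ C0 * (Rv K (ts + (-γ) • (t - ts)) * k) :=
        mul_le_mul e2 hy1 h0.le h1.le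
      have e4 : (Rv K ts * c0) * k ≤ (C0 * Rv K (ts + (-γ) • (t - ts))) * k := by linarith
      exact le_of_mul_le_mul_right e4 hk
    have e2 := Real.log_le_log (div_pos hRpos hypos) e1
    rw [Real.log_div hRpos.ne' hypos.ne'] at e2
    exact e2.trans (le_abs_self _)
  have hbu : b ≤ L / r0 * |Real.log (C0 / c0)| * x + u := by
    have e1 : l * (b - u) ≤ (1 - l) * (u - a) := by linarith
    have e2 : (1 - l) = l * (x / γ) := by
      rw [hl]
      field_simp
      ring
    rw [e2, mul_assoc] at e1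
    have e3 := le_of_mul_le_mul_left e1 hl0
    have e4 : x / γ * (u - a) ≤ x / γ * |Real.log (C0 / c0)| :=
      mul_le_mul_of_nonneg_left hua (by positivity)
    have e5 : x / γ = L / r0 * x := by
      rw [hγ]
      field_simp
    rw [e5] at e4
    have : b - u ≤ L / r0 * x * |Real.log (C0 / c0)| := by
      rw [e5] at e3
      exact e3.trans e4
    linarith
  calc Rv K (ts + x • (t - ts)) = Real.exp b := (Real.exp_log hxpos).symm
    _ ≤ Real.exp (L / r0 * |Real.log (C0 / c0)| * x + u) := Real.exp_le_exp.2 hbu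
    _ = _ := by rw [Real.exp_add, Real.exp_log hRpos]

/-- KM21: fibres over the barycentre -/
theorem t_BAR : Pool.Agent.N483.KM.S_BAR := by
  intro d
  obtain ⟨C, hC, hM⟩ := Pool.Agent.Y252.PV.M4.m4 Pool.Agent.Y625.PV.lev
  obtain ⟨c0, C0, r0, h0, h1, h2, hg⟩ := Pool.Agent.Z864.RG.ldk C d hC
  refine ⟨max r0 (max 1 (Real.exp 1 * C0 / c0)) / r0 * |Real.log (C0 / c0)|, by positivity, ?_⟩
  intro N K ts h hts
  obtain ⟨A, hA⟩ := Pool.Agent.Y211.PV.iso d (Rv K) (adm h)
  obtain ⟨c, hc0, hc1, hI⟩ := ilk h ts hts A hA C (fun θ => hM d (Rv K) (adm h) (lcn h) θ)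
  obtain ⟨g1, g2, g3⟩ := hg _ hI
  exact cen_of h ts A c hc0 hc1 c0 C0 r0 h0 h1 h2 g1 g2 g3

end Pool.Agent.N306.KM
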